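import Pool.Agent.Helper48.OD.St

set_option autoImplicit false

namespace Pool.Agent.Helper38.OD

open Pool.Agent.Helper43.GD Pool.Agent.Helper48.OD

private theorem dod_tw {L : Type} [CommRing L] (H : Subgroup Lˣ) (hH : UI H)
    (hno : ¬ ∃ θ ∈ H, θ ^ 2 = -1) (s : ℕ) : ∀ z ∈ H, z ^ (2 ^ s) = 1 → z = 1 ∨ z = -1 := by
  induction s with
  | zero =>
    intro z _ hz
    left
    simpa using hz
  | succ s ih =>
    intro z hz h
    have h2 : (z ^ 2) ^ (2 ^ s) = 1 := by
      rw [← pow_mul, ← pow_succ']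
      exact h
    rcases ih (z ^ 2) (H.pow_mem hz 2) h2 with h3 | h3
    · exact hH z hz h3
    · exact absurd ⟨z, hz, h3⟩ hno

theorem hDOD : StDOD := by
  intro L A _ _ Q v hD
  have hfin : Finite L := hD.cb.fin
  have hnt : Nontrivial L := hD.cb.nt
  have hne : (-1 : Lˣ) ≠ 1 := by
    intro h
    have h1 : (-1 : L) = 1 := by
      have := congrArg Units.val h
      simpa using this
    have h2 : (2 : L) = 0 := by
      calc (2 : L) = 1 - (-1) := by norm_num
        _ = 0 := by rw [h1, sub_self]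
    have h3 := hD.cb.two
    rw [h2] at h3
    exact not_isUnit_zero h3
  refine ⟨fun y hy => ?_, fun y hy => ⟨?_, fun h => Ev.not_od hne h hy⟩⟩
  · obtain ⟨i, j, hi, hj, hij⟩ := decomp y
    obtain ⟨s, hs⟩ := hi
    rcases dod_tw Q.U hD.cb.ui hD.no s (y ^ i) (Q.U.pow_mem hy i) hs with h | h
    · left
      rw [h, one_mul] at hij
      rw [← hij]
      exact hj
    · right
      rw [h, neg_one_mul] at hij
      rw [← hij, neg_neg]
      exact hj
  · have h := Ev.neg_one.mul_od hy
    rwa [neg_one_mul] at h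

end Pool.Agent.Helper38.OD
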